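import Pool.Agent.R686.SLPComb

set_option autoImplicit false

/-!
# The strong Lefschetz property for pure simplicial forests
-/

universe u

namespace Pool.Agent.Results.MP_cb4cd2_al.PureForestSLP

open MvPolynomial Pool.Agent.R686.SLP

section Definitions

variable {n : ℕ}

/-- `Δ` is a simplicial complex: a family of subsets of `{1, …, n}` closed under taking
subsets. -/
def IsComplex (Δ : Set (Finset (Fin n))) : Prop := ∀ s ∈ Δ, ∀ t ⊆ s, t ∈ Δ

/-- The facets of `Δ`: its maximal faces. -/
def facets (Δ : Set (Finset (Fin n))) : Set (Finset (Fin n)) :=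
  {F | F ∈ Δ ∧ ∀ G ∈ Δ, F ⊆ G → G = F}

/-- `Δ` is pure: all facets have the same dimension. -/
def IsPure (Δ : Set (Finset (Fin n))) : Prop :=
  ∀ F ∈ facets Δ, ∀ G ∈ facets Δ, F.card = G.card

/-- `F` is a leaf of the complex whose set of facets is `𝓕`: either `F` is the only facet, or some
facet `G ≠ F` satisfies `F ∩ F' ⊆ F ∩ G` for every facet `F' ≠ F`. -/
def IsLeaf (𝓕 : Set (Finset (Fin n))) (F : Finset (Fin n)) : Prop :=
  F ∈ 𝓕 ∧ (𝓕 = {F} ∨ ∃ G ∈ 𝓕, G ≠ F ∧ ∀ F' ∈ 𝓕, F' ≠ F → F ∩ F' ⊆ F ∩ G)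

/-- `F` and `G` are facets in `𝓕` joined by a chain of facets in `𝓕`, any two consecutive ones
having a common vertex. -/
def Joined (𝓕 : Set (Finset (Fin n))) (F G : Finset (Fin n)) : Prop :=
  F ∈ 𝓕 ∧ Relation.ReflTransGen (fun A B => B ∈ 𝓕 ∧ (A ∩ B).Nonempty) F G

/-- The complex whose set of facets is `𝓕` is a simplicial tree: it is connected, and every
subcomplex generated by a nonempty set of its facets has a leaf. -/
def IsTree (𝓕 : Set (Finset (Fin n))) : Prop :=
  (∀ F ∈ 𝓕, ∀ G ∈ 𝓕, Joined 𝓕 F G) ∧ ∀ 𝓖 ⊆ 𝓕, 𝓖.Nonempty → ∃ F, IsLeaf 𝓖 F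

/-- `Δ` is a simplicial forest: each connected component (given by its set of facets, all the
facets joined to a facet `F`) is a simplicial tree. -/
def IsForest (Δ : Set (Finset (Fin n))) : Prop :=
  ∀ F ∈ facets Δ, IsTree {G | Joined (facets Δ) F G}

/-- The ideal defining `A(Δ)`: it is generated by the monomials `∏_{i ∈ s} x_i` for the non-faces
`s` and by the squares `x_i ^ 2`. -/
noncomputable def idealA (K : Type u) [Field K] (Δ : Set (Finset (Fin n))) :
    Ideal (MvPolynomial (Fin n) K) :=
  Ideal.span ({m | ∃ s, s ∉ Δ ∧ m = ∏ i ∈ s, X i} ∪ {m | ∃ i, m = X i ^ 2})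

/-- The graded piece of degree `i` of the quotient by the ideal `I`. -/
noncomputable def piece {K : Type u} [Field K] (I : Ideal (MvPolynomial (Fin n) K)) (i : ℕ) :
    Submodule K (MvPolynomial (Fin n) K ⧸ I) :=
  (homogeneousSubmodule (Fin n) K i).map (Ideal.Quotient.mkₐ K I).toLinearMap

/-- All the multiplication maps by the powers `L ^ j` of the linear form `L`, from degree `i` to
degree `i + j`, have full rank on the quotient by `I`: they are injective or surjective. -/
def FullRank {K : Type u} [Field K] (I : Ideal (MvPolynomial (Fin n) K))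
    (L : MvPolynomial (Fin n) K) : Prop :=
  ∀ i j : ℕ,
    (∀ x ∈ piece I i, Ideal.Quotient.mk I L ^ j * x = 0 → x = 0) ∨
    (∀ y ∈ piece I (i + j), ∃ x ∈ piece I i, Ideal.Quotient.mk I L ^ j * x = y)

end Definitions

section Poly

variable {n : ℕ} {K : Type u} [Field K]

/-- The exponent of the squarefree monomial with support `S`. -/
noncomputable def ind (S : Finset (Fin n)) : Fin n →₀ ℕ := ∑ i ∈ S, Finsupp.single i 1

lemma ind_apply (S : Finset (Fin n)) (v : Fin n) : ind S v = if v ∈ S then 1 else 0 := by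
  classical
  simp only [ind, Finsupp.finsetSum_apply, Finsupp.single_apply]
  rw [Finset.sum_ite_eq' S v (fun _ => 1)]

lemma ind_insert {S : Finset (Fin n)} {v : Fin n} (hv : v ∉ S) :
    ind (insert v S) = Finsupp.single v 1 + ind S := by
  rw [ind, Finset.sum_insert hv]; rfl

lemma ind_le {S T : Finset (Fin n)} : ind S ≤ ind T ↔ S ⊆ T := by
  constructor
  · intro h v hv
    have := h v
    rw [ind_apply, ind_apply, if_pos hv] at this
    by_contra hv'
    rw [if_neg hv'] at this
    omega
  · intro h v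
    rw [ind_apply, ind_apply]
    by_cases hv : v ∈ S
    · rw [if_pos hv, if_pos (h hv)]
    · rw [if_neg hv]; exact Nat.zero_le _

lemma ind_injective : Function.Injective (ind (n := n)) := fun S T h =>
  Finset.Subset.antisymm (ind_le.1 h.le) (ind_le.1 h.ge)

lemma ind_degree (S : Finset (Fin n)) : (ind S).degree = S.card := by
  simp only [ind, map_sum, Finsupp.degree_single, Finset.sum_const, smul_eq_mul, mul_one]

lemma prod_X (S : Finset (Fin n)) : ∏ i ∈ S, (X i : MvPolynomial (Fin n) K) =
    monomial (ind S) 1 := by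
  classical
  induction S using Finset.induction_on with
  | empty => simp [ind]
  | insert v S hv ih =>
    rw [Finset.prod_insert hv, ih, ind_insert hv, X, monomial_mul, one_mul]

lemma exists_ind {S : Finset (Fin n)} {m : Fin n →₀ ℕ} (h : m ≤ ind S) :
    ∃ T ⊆ S, m = ind T := by
  classical
  refine ⟨m.support, ?_, ?_⟩
  · intro v hv
    have := h v
    rw [ind_apply] at this
    by_contra hv'
    rw [if_neg hv'] at this
    exact (Finsupp.mem_support_iff.1 hv) (by omega)
  · ext v
    rw [ind_apply]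
    have := h v
    rw [ind_apply] at this
    by_cases hv : v ∈ m.support
    · rw [if_pos hv]
      have h0 := Finsupp.mem_support_iff.1 hv
      split_ifs at this <;> omega
    · rw [if_neg hv]
      exact Finsupp.notMem_support_iff.1 hv

/-- The squarefree coefficients. -/
noncomputable def cf (p : MvPolynomial (Fin n) K) : Finset (Fin n) → K := fun S => coeff (ind S) p

/-- The ideal of all polynomials whose coefficients at the faces vanish. -/
noncomputable def J (K : Type u) [Field K] {Δ : Set (Finset (Fin n))} (hΔ : IsComplex Δ) :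
    Ideal (MvPolynomial (Fin n) K) where
  carrier := {p | ∀ S ∈ Δ, cf p S = 0}
  add_mem' := by
    intro p q hp hq S hS
    simp only [cf, coeff_add]
    have h1 := hp S hS
    have h2 := hq S hS
    simp only [cf] at h1 h2
    rw [h1, h2, add_zero]
  zero_mem' := by intro S _; simp [cf]
  smul_mem' := by
    classical
    intro q p hp S hS
    simp only [cf, smul_eq_mul, coeff_mul]
    refine Finset.sum_eq_zero fun x hx => ?_
    have hx' := Finset.HasAntidiagonal.mem_antidiagonal.1 hx
    have hle : x.2 ≤ ind S := by rw [← hx']; exact le_add_self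
    obtain ⟨T, hT, hxT⟩ := exists_ind hle
    have h1 := hp T (hΔ S hS T hT)
    simp only [cf] at h1
    rw [hxT, h1, mul_zero]

lemma mem_J {Δ : Set (Finset (Fin n))} (hΔ : IsComplex Δ) {p : MvPolynomial (Fin n) K} :
    p ∈ J K hΔ ↔ ∀ S ∈ Δ, cf p S = 0 := Iff.rfl

lemma mem_idealA {Δ : Set (Finset (Fin n))} (hΔ : IsComplex Δ) {p : MvPolynomial (Fin n) K} :
    p ∈ idealA K Δ ↔ ∀ S ∈ Δ, cf p S = 0 := by
  classical
  rw [← mem_J hΔ]
  constructor
  · intro hp
    have hle : idealA K Δ ≤ J K hΔ := by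
      rw [idealA, Ideal.span_le]
      rintro m (⟨s, hs, rfl⟩ | ⟨i, rfl⟩)
      · intro S hS
        rw [prod_X, cf, coeff_monomial, if_neg]
        intro h
        exact hs (ind_injective h ▸ hS)
      · intro S hS
        rw [cf, X_pow_eq_monomial, coeff_monomial, if_neg]
        intro h
        have h1 := DFunLike.congr_fun h i
        rw [Finsupp.single_eq_same, ind_apply] at h1
        split_ifs at h1 <;> omega
    exact hle hp
  · intro hp
    rw [p.as_sum]
    refine Ideal.sum_mem _ fun m hm => ?_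
    have hdiv : ∀ q : Fin n →₀ ℕ, q ≤ m → monomial q (1 : K) ∈ idealA K Δ →
        monomial m (coeff m p) ∈ idealA K Δ := by
      intro q hq hmem
      have : monomial m (coeff m p) = monomial (m - q) (coeff m p) * monomial q (1 : K) := by
        rw [monomial_mul, mul_one, tsub_add_cancel_of_le hq]
      rw [this]
      exact Ideal.mul_mem_left _ _ hmem
    by_cases hsq : ∃ S, m = ind S
    · obtain ⟨S, rfl⟩ := hsq
      have hS : S ∉ Δ := by
        intro hS
        exact (mem_support_iff.1 hm) (hp S hS)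
      refine hdiv (ind S) le_rfl ?_
      rw [← prod_X]
      exact Ideal.subset_span (Or.inl ⟨S, hS, rfl⟩)
    · obtain ⟨i, hi⟩ : ∃ i, 2 ≤ m i := by
        by_contra hcon
        push Not at hcon
        apply hsq
        have hle : m ≤ ind (Finset.univ : Finset (Fin n)) := by
          intro v
          rw [ind_apply, if_pos (Finset.mem_univ v)]
          have := hcon v
          omega
        obtain ⟨T, -, hT⟩ := exists_ind hle
        exact ⟨T, hT⟩
      refine hdiv (Finsupp.single i 2) ?_ ?_
      · rw [Finsupp.single_le_iff]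
        exact hi
      · rw [← X_pow_eq_monomial]
        exact Ideal.subset_span (Or.inr ⟨i, rfl⟩)

/-- The linear form with coefficients `a`. -/
noncomputable def lin (a : Fin n → K) : MvPolynomial (Fin n) K := ∑ i, C (a i) * X i

lemma cf_lin_mul (a : Fin n → K) (p : MvPolynomial (Fin n) K) : cf (lin a * p) = U a (cf p) := by
  classical
  funext S
  simp only [cf, lin, Finset.sum_mul, coeff_sum, U, mul_assoc, coeff_C_mul]
  have h1 : ∀ v : Fin n, a v * coeff (ind S) (X v * p) =
      if v ∈ S then a v * coeff (ind (S.erase v)) p else 0 := by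
    intro v
    rw [mul_comm (X v) p, coeff_mul_X']
    have hs : v ∈ (ind S).support ↔ v ∈ S := by
      rw [Finsupp.mem_support_iff, ind_apply]
      split_ifs with h <;> simp [h]
    by_cases hv : v ∈ S
    · rw [if_pos (hs.2 hv), if_pos hv]
      have h2 : ind S - Finsupp.single v 1 = ind (S.erase v) := by
        conv_lhs => rw [← Finset.insert_erase hv, ind_insert (Finset.notMem_erase v S)]
        rw [add_tsub_cancel_left]
      rw [h2]
    · rw [if_neg (fun h => hv (hs.1 h)), if_neg hv, mul_zero]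
  rw [Finset.sum_congr rfl fun v _ => h1 v, Finset.sum_ite_mem, Finset.univ_inter]

lemma cf_lin_pow_mul (a : Fin n → K) (j : ℕ) (p : MvPolynomial (Fin n) K) :
    cf (lin a ^ j * p) = (U a)^[j] (cf p) := by
  induction j with
  | zero => simp
  | succ j ih => rw [pow_succ', mul_assoc, cf_lin_mul, ih, Function.iterate_succ_apply']

lemma lin_isHomogeneous (a : Fin n → K) : (lin a).IsHomogeneous 1 := by
  refine IsHomogeneous.sum _ _ _ fun i _ => ?_
  simpa using (isHomogeneous_C (Fin n) (a i)).mul (isHomogeneous_X K i)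

lemma cf_of_homog {p : MvPolynomial (Fin n) K} {i : ℕ} (hp : p.IsHomogeneous i)
    {S : Finset (Fin n)} (hS : S.card ≠ i) : cf p S = 0 := by
  by_contra h
  have := hp h
  change Finsupp.weight (fun _ => 1) (ind S) = i at this
  rw [← Finsupp.degree_eq_weight_one, ind_degree] at this
  exact hS this

lemma exists_poly (i : ℕ) (f : Finset (Fin n) → K) : ∃ p : MvPolynomial (Fin n) K,
    p.IsHomogeneous i ∧ ∀ S : Finset (Fin n), S.card = i → cf p S = f S := by
  classical
  refine ⟨∑ T ∈ (Finset.univ : Finset (Finset (Fin n))).filter (fun T => T.card = i),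
    monomial (ind T) (f T), ?_, ?_⟩
  · refine IsHomogeneous.sum _ _ _ fun T hT => ?_
    refine isHomogeneous_monomial _ ?_
    rw [ind_degree]
    exact (Finset.mem_filter.1 hT).2
  · intro S hS
    rw [cf, coeff_sum, Finset.sum_eq_single S]
    · rw [coeff_monomial, if_pos rfl]
    · intro T _ hT
      rw [coeff_monomial, if_neg fun h => hT (ind_injective h)]
    · intro h
      exact absurd (Finset.mem_filter.2 ⟨Finset.mem_univ S, hS⟩) h

lemma exists_facet {Δ : Set (Finset (Fin n))} {T : Finset (Fin n)} (hT : T ∈ Δ) :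
    ∃ F ∈ facets Δ, T ⊆ F := by
  obtain ⟨F, hTF, hF⟩ := (Set.toFinite Δ).exists_le_maximal hT
  refine ⟨F, ⟨hF.prop, fun G hG hFG => ?_⟩, hTF⟩
  exact Finset.Subset.antisymm (hF.le_of_ge hG hFG) hFG

/-- In a forest every nonempty set of facets has a leaf. -/
lemma exists_leaf {Δ : Set (Finset (Fin n))} (hf : IsForest Δ) (𝓖 : Set (Finset (Fin n)))
    (h𝓖 : 𝓖 ⊆ facets Δ) (hne : 𝓖.Nonempty) : ∃ F, IsLeaf 𝓖 F := by
  obtain ⟨F0, hF0⟩ := hne
  have h0 := h𝓖 hF0
  obtain ⟨F, hF, hl⟩ := (hf F0 h0).2 (𝓖 ∩ {G | Joined (facets Δ) F0 G})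
    Set.inter_subset_right ⟨F0, hF0, h0, Relation.ReflTransGen.refl⟩
  have hdis : ∀ F' ∈ 𝓖, F' ∉ {G | Joined (facets Δ) F0 G} → F ∩ F' = ∅ := by
    intro F' hF' hn
    by_contra hne
    exact hn ⟨h0, hF.2.2.tail ⟨h𝓖 hF', Finset.nonempty_iff_ne_empty.2 hne⟩⟩
  refine ⟨F, hF.1, ?_⟩
  by_cases hall : 𝓖 = {F}
  · exact Or.inl hall
  refine Or.inr ?_
  rcases hl with hl | ⟨G, hG, hGF, hl⟩
  · obtain ⟨G, hG, hGF⟩ : ∃ G ∈ 𝓖, G ≠ F := by
      by_contra hcon
      push Not at hcon
      exact hall (Set.Subset.antisymm (fun G hG => hcon G hG)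
        (fun G hG => by rw [Set.mem_singleton_iff.1 hG]; exact hF.1))
    refine ⟨G, hG, hGF, fun F' hF' hne => ?_⟩
    have : F' ∉ {G | Joined (facets Δ) F0 G} := by
      intro h
      have : F' ∈ ({F} : Set (Finset (Fin n))) := hl ▸ ⟨hF', h⟩
      exact hne this
    rw [hdis F' hF' this]
    exact Finset.empty_subset _
  · refine ⟨G, hG.1, hGF, fun F' hF' hne => ?_⟩
    by_cases h : F' ∈ {G | Joined (facets Δ) F0 G}
    · exact hl F' ⟨hF', h⟩ hne
    · rw [hdis F' hF' h]
      exact Finset.empty_subset _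

end Poly

/-- **Pure simplicial forests have the strong Lefschetz property.** Let `Δ` be a pure simplicial
forest on `{1, …, n}` and let `K` be a field of characteristic zero, or of characteristic larger
than the size of the facets of `Δ`. For every linear form `L = ∑ a_i x_i` with nonzero coefficients
(in particular for `x_1 + … + x_n`), all the maps `× L ^ j : A(Δ)_i → A(Δ)_{i + j}` have full
rank. -/
theorem result {K : Type u} [Field K] {n : ℕ} (Δ : Set (Finset (Fin n))) (hΔ : IsComplex Δ)
    (hpure : IsPure Δ) (hforest : IsForest Δ)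
    (hchar : ringChar K = 0 ∨ ∀ F ∈ Δ, F.card < ringChar K)
    (a : Fin n → K) (ha : ∀ i, a i ≠ 0) :
    FullRank (idealA K Δ) (∑ i, C (a i) * X i) := by
  classical
  change FullRank (idealA K Δ) (lin a)
  intro i j
  rcases Δ.eq_empty_or_nonempty with rfl | ⟨T0, hT0⟩
  · -- no faces
    left
    rintro x ⟨p, hp, rfl⟩ -
    refine Ideal.Quotient.eq_zero_iff_mem.2 ?_
    rw [mem_idealA hΔ]
    intro S hS
    exact absurd hS (Set.notMem_empty S)
  obtain ⟨F0, hF0, -⟩ := exists_facet hT0
  set D := F0.card with hD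
  have hcard : ∀ F ∈ facets Δ, F.card = D := fun F hF => hpure F hF F0 hF0
  have hch : ∀ k : ℕ, 1 ≤ k → k ≤ D → (k : K) ≠ 0 := by
    intro k h1 h2 h0
    have hdvd := (ringChar.spec K k).1 h0
    rcases hchar with h | h
    · rw [h, Nat.zero_dvd] at hdvd
      omega
    · have := h F0 hF0.1
      have := Nat.le_of_dvd (by omega) hdvd
      omega
  have hmul : ∀ p : MvPolynomial (Fin n) K, Ideal.Quotient.mk (idealA K Δ) (lin a) ^ j *
      Ideal.Quotient.mk (idealA K Δ) p = Ideal.Quotient.mk (idealA K Δ) (lin a ^ j * p) := by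
    intro p
    rw [map_mul, map_pow]
  by_cases hij : 2 * i + j ≤ D
  · left
    rintro x ⟨p, hp, rfl⟩ hx
    replace hp : p.IsHomogeneous i := hp
    change Ideal.Quotient.mk (idealA K Δ) (lin a) ^ j * Ideal.Quotient.mk (idealA K Δ) p = 0 at hx
    change Ideal.Quotient.mk (idealA K Δ) p = 0
    rw [hmul, Ideal.Quotient.eq_zero_iff_mem, mem_idealA hΔ, cf_lin_pow_mul] at hx
    rw [Ideal.Quotient.eq_zero_iff_mem, mem_idealA hΔ]
    intro T hT
    by_cases hTi : T.card = i
    · obtain ⟨F, hF, hTF⟩ := exists_facet hT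
      have hFD := hcard F hF
      exact inj_simplex ha F (fun k h1 h2 => hch k h1 (by omega)) i j (cf p) (by omega)
        (fun S hS _ => hx S (hΔ F hF.1 S hS)) T hTF hTi
    · exact cf_of_homog hp hTi
  · right
    rintro y ⟨q, hq, rfl⟩
    replace hq : q.IsHomogeneous (i + j) := hq
    change ∃ x ∈ piece (idealA K Δ) i, Ideal.Quotient.mk (idealA K Δ) (lin a) ^ j * x =
      Ideal.Quotient.mk (idealA K Δ) q
    obtain ⟨f, -, hf⟩ := surj_forest ha D hch i j (by omega) (cf q)
      (facets Δ).toFinset (fun F hF => hcard F (Set.mem_toFinset.1 hF)) (by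
        intro 𝓖 h𝓖 hne
        obtain ⟨F, hF, hl⟩ := exists_leaf hforest (𝓖 : Set (Finset (Fin n)))
          (fun G hG => Set.mem_toFinset.1 (h𝓖 hG)) hne
        refine ⟨F, hF, ?_⟩
        rcases hl with hl | ⟨G, hG, hGF, hl⟩
        · left
          rw [← Finset.coe_inj, hl, Finset.coe_singleton]
        · exact Or.inr ⟨G, hG, hGF, hl⟩)
    obtain ⟨p, hp, hpf⟩ := exists_poly i f
    refine ⟨Ideal.Quotient.mk (idealA K Δ) p, ⟨p, hp, rfl⟩, ?_⟩
    rw [hmul, Ideal.Quotient.eq, mem_idealA hΔ]
    intro S hS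
    have hsub : cf (lin a ^ j * p - q) S = cf (lin a ^ j * p) S - cf q S := by
      simp [cf]
    rw [hsub]
    by_cases hSc : S.card = i + j
    · obtain ⟨F, hF, hSF⟩ := exists_facet hS
      rw [← hf S hSc ⟨F, Set.mem_toFinset.2 hF, hSF⟩, cf_lin_pow_mul, sub_eq_zero]
      exact Upow_congr j fun R _ hR => hpf R (by omega)
    · have h1 : (lin a ^ j * p).IsHomogeneous (1 * j + i) := ((lin_isHomogeneous a).pow j).mul hp
      rw [cf_of_homog h1 (by omega), cf_of_homog hq hSc, sub_zero]

end Pool.Agent.Results.MP_cb4cd2_al.PureForestSLP
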